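import Mathlib

/-!
# Monochromatic triangle tilings under intermediate minimum degree: a disproof

A construction of 2-edge-coloured graphs with `n` vertices and minimum degree `δ` in which at most
`⌊(3δ - 2n + 1)/4⌋` triangles of one colour are pairwise vertex-disjoint. It has three independent
sets of size `n - δ`, a red clique and a blue clique. For `6n/7 < δ < 10n/11` this is smaller than
the conjectured value.
-/

set_option autoImplicit false

namespace Pool.Agent.Results.MP_61eff6_co.Disproof

/-- The edge-coloured graph `(G, c)` contains `m` pairwise vertex-disjoint triangles all of whose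
edges have one and the same colour, i.e. a monochromatic copy of `m K₃`. -/
def HasMonoTiling {V : Type} (G : SimpleGraph V) (c : Sym2 V → Bool) (m : ℕ) : Prop :=
  ∃ (b : Bool) (T : Fin m → Finset V),
    (∀ i, (T i).card = 3 ∧ ∀ x ∈ T i, ∀ y ∈ T i, x ≠ y → G.Adj x y ∧ c s(x, y) = b) ∧
    ∀ i j, i ≠ j → Disjoint (T i) (T j)

/-- The assertion of Q1: for every `n ≥ 25` and every 2-edge-coloured graph `(G, c)` on `n` vertices
with minimum degree `δ`, there is a monochromatic `m K₃` for
`m = ⌊(δ+1)/5⌋` if `15n/17 ≤ δ`, for `m = ⌊(4δ-3n+1)/3⌋` if `6n/7 ≤ δ ≤ 15n/17`, and for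
`m = ⌈(5δ-4n)/2⌉` if `4n/5 ≤ δ ≤ 6n/7`. -/
def Assertion : Prop :=
  ∀ n : ℕ, 25 ≤ n → ∀ (G : SimpleGraph (Fin n)) [DecidableRel G.Adj] (c : Sym2 (Fin n) → Bool),
    (15 * n ≤ 17 * G.minDegree →
      HasMonoTiling G c ((G.minDegree + 1) / 5)) ∧
    (6 * n ≤ 7 * G.minDegree → 17 * G.minDegree ≤ 15 * n →
      HasMonoTiling G c ((4 * G.minDegree - 3 * n + 1) / 3)) ∧
    (4 * n ≤ 5 * G.minDegree → 7 * G.minDegree ≤ 6 * n →
      HasMonoTiling G c ((5 * G.minDegree - 4 * n + 1) / 2))

/-- colours between the five parts; `true` is blue. Parts `0, 1, 2` are independent, part `3` is a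
blue clique, part `4` is a red clique -/
def tab : Fin 5 → Fin 5 → Bool :=
  ![![false, false, true,  false, true],
    ![false, false, true,  true,  false],
    ![true,  true,  false, false, false],
    ![false, true,  false, true,  true],
    ![true,  false, false, true,  false]]

lemma tab_symm : ∀ a b, tab a b = tab b a := by decide

/-- the graph -/
def gr {V : Type} (cl : V → Fin 5) : SimpleGraph V where
  Adj x y := x ≠ y ∧ (cl x = cl y → 3 ≤ cl x)
  symm := ⟨fun _ _ h => ⟨h.1.symm, fun e => by rw [e]; exact h.2 e.symm⟩⟩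
  loopless := ⟨fun _ h => h.1 rfl⟩

lemma gr_adj {V : Type} (cl : V → Fin 5) (x y : V) :
    (gr cl).Adj x y ↔ x ≠ y ∧ (cl x = cl y → 3 ≤ cl x) := Iff.rfl

/-- the colouring -/
def col {V : Type} (cl : V → Fin 5) : Sym2 V → Bool :=
  Sym2.lift ⟨fun x y => tab (cl x) (cl y), fun _ _ => tab_symm _ _⟩

/-- Each triangle of one colour has two vertices in the clique of this colour. -/
lemma table_fact : ∀ (a b c : Fin 5) (t : Bool), (a = b → 3 ≤ a) → (a = c → 3 ≤ a) →
    (b = c → 3 ≤ b) → tab a b = t → tab a c = t → tab b c = t →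
    ∃ q : Fin 5, q = (if t then 3 else 4) ∧
      ((a = q ∧ b = q) ∨ (a = q ∧ c = q) ∨ (b = q ∧ c = q)) := by decide

lemma two_le {V : Type} [DecidableEq V] (cl : V → Fin 5) (b : Bool) (T : Finset V)
    (hT : T.card = 3)
    (h : ∀ x ∈ T, ∀ y ∈ T, x ≠ y → (gr cl).Adj x y ∧ col cl s(x, y) = b) :
    2 ≤ (T.filter (fun x => cl x = (if b then 3 else 4))).card := by
  obtain ⟨x, y, z, hxy, hxz, hyz, rfl⟩ := Finset.card_eq_three.mp hT
  have h1 := h x (by simp) y (by simp) hxy
  have h2 := h x (by simp) z (by simp) hxz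
  have h3 := h y (by simp) z (by simp) hyz
  obtain ⟨q, hq, hh⟩ := table_fact (cl x) (cl y) (cl z) b h1.1.2 h2.1.2 h3.1.2 h1.2 h2.2 h3.2
  rw [← hq]
  rcases hh with ⟨ha, hb⟩ | ⟨ha, hb⟩ | ⟨ha, hb⟩
  · refine (Finset.card_pair hxy).symm.le.trans (Finset.card_le_card ?_)
    intro w hw
    simp only [Finset.mem_insert, Finset.mem_singleton] at hw
    rcases hw with rfl | rfl <;> simp [ha, hb]
  · refine (Finset.card_pair hxz).symm.le.trans (Finset.card_le_card ?_)
    intro w hw
    simp only [Finset.mem_insert, Finset.mem_singleton] at hw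
    rcases hw with rfl | rfl <;> simp [ha, hb]
  · refine (Finset.card_pair hyz).symm.le.trans (Finset.card_le_card ?_)
    intro w hw
    simp only [Finset.mem_insert, Finset.mem_singleton] at hw
    rcases hw with rfl | rfl <;> simp [ha, hb]

lemma tiling_le {V : Type} [Fintype V] [DecidableEq V] (cl : V → Fin 5) (m : ℕ)
    (h : HasMonoTiling (gr cl) (col cl) m) :
    2 * m ≤ (Finset.univ.filter (fun x => cl x = 3)).card ∨
      2 * m ≤ (Finset.univ.filter (fun x => cl x = 4)).card := by
  obtain ⟨b, T, hT, hdis⟩ := h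
  have key : 2 * m ≤ (Finset.univ.filter (fun x => cl x = (if b then 3 else 4))).card := by
    calc 2 * m = ∑ _i : Fin m, 2 := by simp [mul_comm]
      _ ≤ ∑ i : Fin m, ((T i).filter (fun x => cl x = (if b then 3 else 4))).card :=
          Finset.sum_le_sum (fun i _ => two_le cl b (T i) (hT i).1 (hT i).2)
      _ = (Finset.univ.biUnion
            (fun i => (T i).filter (fun x => cl x = (if b then 3 else 4)))).card := by
          rw [Finset.card_biUnion]
          intro i _ j _ hij
          exact Finset.disjoint_filter_filter (hdis i j hij)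
      _ ≤ _ := by
          apply Finset.card_le_card
          intro x hx
          simp only [Finset.mem_biUnion, Finset.mem_filter, Finset.mem_univ, true_and] at hx ⊢
          obtain ⟨i, _, hi⟩ := hx
          exact hi
  cases b
  · right; simpa using key
  · left; simpa using key

/-- the five parts, of sizes `k, k, k, p` and `n - 3k - p` -/
def cls (n k p : ℕ) (i : Fin n) : Fin 5 :=
  if i.1 < k then 0 else if i.1 < 2 * k then 1 else if i.1 < 3 * k then 2
    else if i.1 < 3 * k + p then 3 else 4

lemma card_range (n a b : ℕ) (hb : b ≤ n) :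
    ((Finset.univ : Finset (Fin n)).filter (fun i => a ≤ i.1 ∧ i.1 < b)).card = b - a := by
  rw [← Nat.card_Ico a b]
  apply Finset.card_bij (fun i _ => i.1)
  · intro i hi
    simp only [Finset.mem_filter, Finset.mem_univ, true_and] at hi
    exact Finset.mem_Ico.mpr hi
  · intro i _ j _ hij
    exact Fin.ext hij
  · intro x hx
    rw [Finset.mem_Ico] at hx
    exact ⟨⟨x, by omega⟩, by simpa using hx, rfl⟩

lemma card_cls (n k p : ℕ) (h : 3 * k + p ≤ n) (j : Fin 5) :
    ((Finset.univ : Finset (Fin n)).filter (fun x => cls n k p x = j)).card =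
      if j < 3 then k else if j = 3 then p else n - 3 * k - p := by
  have h0 : ∀ a b : ℕ, b ≤ n → (∀ i : Fin n, cls n k p i = j ↔ a ≤ i.1 ∧ i.1 < b) →
      ((Finset.univ : Finset (Fin n)).filter (fun x => cls n k p x = j)).card = b - a := by
    intro a b hb hi
    rw [← card_range n a b hb]
    congr 1
    ext i
    simp only [Finset.mem_filter, Finset.mem_univ, true_and]
    exact hi i
  fin_cases j
  · rw [h0 0 k (by omega)]
    · simp
    · intro i; unfold cls; split_ifs <;> simp <;> omega
  · rw [h0 k (2 * k) (by omega)]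
    · simp; omega
    · intro i; unfold cls; split_ifs <;> simp <;> omega
  · rw [h0 (2 * k) (3 * k) (by omega)]
    · simp; omega
    · intro i; unfold cls; split_ifs <;> simp <;> omega
  · rw [h0 (3 * k) (3 * k + p) (by omega)]
    · simp
    · intro i; unfold cls; split_ifs <;> simp <;> omega
  · rw [h0 (3 * k + p) n le_rfl]
    · simp; omega
    · intro i; have := i.2; unfold cls; split_ifs <;> simp <;> omega

instance decAdj {V : Type} [DecidableEq V] (cl : V → Fin 5) : DecidableRel (gr cl).Adj :=
  fun x y => inferInstanceAs (Decidable (x ≠ y ∧ (cl x = cl y → 3 ≤ cl x)))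

lemma degree_eq (n k p : ℕ) (h : 3 * k + p ≤ n) (x : Fin n) :
    (gr (cls n k p)).degree x = if cls n k p x < 3 then n - k else n - 1 := by
  unfold SimpleGraph.degree
  rw [SimpleGraph.neighborFinset_eq_filter]
  split_ifs with hx
  · have h1 : (Finset.univ.filter (fun y => (gr (cls n k p)).Adj x y)) =
        Finset.univ.filter (fun y => ¬ cls n k p y = cls n k p x) := by
      ext y
      rw [Finset.mem_filter, Finset.mem_filter, gr_adj]
      constructor
      · rintro ⟨h0, _, h2⟩
        exact ⟨h0, fun h3 => absurd (h2 h3.symm) (not_le.mpr hx)⟩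
      · rintro ⟨h0, h3⟩
        exact ⟨h0, fun e => h3 (by rw [e]), fun e => absurd e.symm h3⟩
    rw [h1, Finset.filter_not, Finset.card_sdiff_of_subset (Finset.filter_subset _ _),
      card_cls n k p h, if_pos hx]
    simp
  · have h1 : (Finset.univ.filter (fun y => (gr (cls n k p)).Adj x y)) =
        Finset.univ.erase x := by
      ext y
      rw [Finset.mem_filter, Finset.mem_erase, gr_adj]
      constructor
      · rintro ⟨h0, h2, _⟩; exact ⟨h2.symm, h0⟩
      · rintro ⟨h2, h0⟩; exact ⟨h0, h2.symm, fun _ => not_lt.mp hx⟩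
    rw [h1, Finset.card_erase_of_mem (Finset.mem_univ x)]
    simp

lemma minDegree_eq (n k p : ℕ) (hk : 1 ≤ k) (h : 3 * k + p ≤ n) :
    (gr (cls n k p)).minDegree = n - k := by
  have hn : 0 < n := by omega
  have : Nonempty (Fin n) := ⟨⟨0, hn⟩⟩
  apply le_antisymm
  · refine ((gr (cls n k p)).minDegree_le_degree ⟨0, hn⟩).trans ?_
    rw [degree_eq n k p h, if_pos]
    unfold cls
    simp [show 0 < k by omega]
  · apply (gr (cls n k p)).le_minDegree_of_forall_le_degree
    intro v
    rw [degree_eq n k p h]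
    split_ifs <;> omega

/-- The construction. -/
lemma construction (n δ : ℕ) (h1 : 2 * n ≤ 3 * δ) (h2 : δ < n) :
    ∃ (G : SimpleGraph (Fin n)) (_ : DecidableRel G.Adj) (c : Sym2 (Fin n) → Bool),
      G.minDegree = δ ∧ ∀ m, (3 * δ - 2 * n + 1) / 4 < m → ¬ HasMonoTiling G c m := by
  -- sizes: `k = n - δ`, `N = 3 δ - 2 n`
  obtain ⟨p, hp⟩ : ∃ p, p = 2 * ((3 * δ - 2 * n + 1) / 4) + 1 := ⟨_, rfl⟩
  by_cases hsmall : 3 * (n - δ) + p ≤ n
  · refine ⟨gr (cls n (n - δ) p), decAdj _, col (cls n (n - δ) p), ?_, ?_⟩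
    · have := minDegree_eq n (n - δ) p (by omega) hsmall
      rw [this]; omega
    · intro m hm h
      have h3 := tiling_le _ m h
      rw [card_cls n (n - δ) p hsmall, card_cls n (n - δ) p hsmall] at h3
      simp at h3
      omega
  · refine ⟨gr (cls n (n - δ) (n - 3 * (n - δ))), decAdj _,
      col (cls n (n - δ) (n - 3 * (n - δ))), ?_, ?_⟩
    · have := minDegree_eq n (n - δ) (n - 3 * (n - δ)) (by omega) (by omega)
      rw [this]; omega
    · intro m hm h
      have h3 := tiling_le _ m h
      rw [card_cls n (n - δ) _ (by omega), card_cls n (n - δ) _ (by omega)] at h3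
      simp at h3
      omega

/-- **Disproof of the assertion of Q1.** There are counterexamples for every minimum degree `δ`
between about `6n/7` and about `10n/11`; the first one given by the construction has `n = 27`. -/
theorem result :
    (∃ (G : SimpleGraph (Fin 27)) (_ : DecidableRel G.Adj) (c : Sym2 (Fin 27) → Bool),
      G.minDegree = 24 ∧ ¬ HasMonoTiling G c 5) ∧
    ¬ Assertion ∧
    ∀ n δ : ℕ, 6 * n + 19 ≤ 7 * δ → 11 * δ + 37 ≤ 10 * n →
      ∃ (G : SimpleGraph (Fin n)) (_ : DecidableRel G.Adj) (c : Sym2 (Fin n) → Bool),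
        G.minDegree = δ ∧
        (15 * n ≤ 17 * δ → ¬ HasMonoTiling G c ((δ + 1) / 5)) ∧
        (17 * δ ≤ 15 * n → ¬ HasMonoTiling G c ((4 * δ - 3 * n + 1) / 3)) := by
  refine ⟨?_, ?_, ?_⟩
  · obtain ⟨G, hG, c, hδ, hc⟩ := construction 27 24 (by norm_num) (by norm_num)
    exact ⟨G, hG, c, hδ, hc 5 (by norm_num)⟩
  · intro h
    obtain ⟨G, hG, c, hδ, hc⟩ := construction 27 24 (by norm_num) (by norm_num)
    have h1 := (h 27 (by norm_num) G c).1
    rw [hδ] at h1
    exact hc 5 (by norm_num) (h1 (by norm_num))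
  · intro n δ h1 h2
    obtain ⟨G, hG, c, hδ, hc⟩ := construction n δ (by omega) (by omega)
    refine ⟨G, hG, c, hδ, fun h3 => hc _ ?_, fun h3 => hc _ ?_⟩
    · omega
    · omega

end Pool.Agent.Results.MP_61eff6_co.Disproof
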